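import Pool.Agent.Lib.MP_ad0d06_co.Core

/-!
The distinguishing extension number of the Euclidean plane is seven.
-/

namespace Pool.Agent.Results.MP_ad0d06_co.ExtSeven

open Ext7

/-- The distinguishing number of the Euclidean plane under its full isometry group is `2`, and
its distinguishing extension number is `7`: every 2-colouring of the complement of a set `W` of at
least seven points with trivial pointwise stabiliser extends to a colouring preserved by no
isometry other than the identity, and this fails for some set of six points. -/
theorem result : distNumber (isomGroup (EuclideanSpace ℝ (Fin 2))) = 2 ∧
    extNumber (isomGroup (EuclideanSpace ℝ (Fin 2))) = 7 := answer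

end Pool.Agent.Results.MP_ad0d06_co.ExtSeven
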